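import Mathlib
import Pool.Agent.helper76.BQ.TDefs
import Pool.Agent.helper76.BQ.BDefs
import Pool.Agent.helper76.BQ.BGood
import Pool.Agent.helper52.BQ.B5c
import Pool.Agent.helper79.BQ.B5e

/-!
Module B5f of project bq (MP_3703a7_ag): the mixed blocks of the second order term vanish.
-/

open Matrix Complex

namespace Pool.Agent.helper76.BQ

variable {F : Type} [Field F] [NumberField F]

theorem mixed_zero {κ d : F} {v0 : F →+* ℝ} (hd : Data κ d v0) {k g : ℕ} {δ : Fin k → F}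
    {bas dua : Fin g → Fin k → Fin 3 → F} (hL : LB d δ bas dua)
    {S M : (F →+* ℝ) → Matrix (Fin k) (Fin k) ℝ} (hM : MajAll δ v0 S M) {z : Fin 2 → ℂ} (hz : z ∈ Ball (v0 d))
    {A C : Matrix (Fin 3) (Fin 3) F} {MM : Matrix (Fin g ⊕ Fin g) (Fin g ⊕ Fin g) ℤ}
    (hR : Rep κ bas dua A C MM) (l l' : Fin k) (hl : l ≠ l') (a a' : Fin 3) :
    ∑ i, ∑ j, (toC MM.toBlocks₁₂ * (den MM (Zm κ d v0 bas M z))ᵀ) i j *
      (pl v0 (bas i l) a * pl v0 (bas j l') a') = 0 := by
  classical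
  set Dn := den MM (Zm κ d v0 bas M z) with hDn
  set Cv : Matrix (Fin 3) (Fin 3) ℂ := C.map (fun x => ((v0 x : ℝ) : ℂ)) with hCv
  set B := B5e_AM (v0 d) (evm κ v0 A C) (evp κ v0 A C) z with hB
  -- first bracket
  have h1 : ∀ m, ∑ i, toC MM.toBlocks₁₂ i m * pl v0 (bas i l) a =
      -(((v0 κ : ℝ) : ℂ) * ∑ b, Cv a b * pl v0 (dua m l) b) := by
    intro m
    have h := congrFun (B5c_block v0 _ bas (fun i => -(κ • mact C (dua i))) hR.bb
      (Pi.single m 1) l) a
    rw [Matrix.mulVec_single_one] at h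
    simp only [Finset.sum_apply, Pi.smul_apply, smul_eq_mul] at h
    have e1 : ∑ i, toC MM.toBlocks₁₂ i m * pl v0 (bas i l) a =
      ∑ i, (toC MM.toBlocks₁₂).col m i * pl v0 (bas i l) a := rfl
    rw [e1, h, Finset.sum_eq_single m]
    · rw [Pi.single_eq_same, one_mul]
      rw [show (-(κ • mact C (dua m))) l = -(κ • (C *ᵥ dua m l)) from rfl, B5c_pl_neg,
        B5c_pl_smul, B5c_pl_mulVec]
      rfl
    · intro j _ hj
      rw [Pi.single_eq_of_ne hj, zero_mul]
    · intro h; exact absurd (Finset.mem_univ m) h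
  -- second bracket
  have h2 : ∀ m, ∑ j, Dn j m * pl v0 (bas j l') a' = ∑ b, B a' b * pl v0 (bas m l') b := by
    intro m
    have h := congrFun ((den_places hd hL hM hz hR (Pi.single m 1)).1 l') a'
    rw [← hDn, Matrix.mulVec_single_one] at h
    simp only [Finset.sum_apply, Pi.smul_apply, smul_eq_mul] at h
    have e1 : ∑ j, Dn j m * pl v0 (bas j l') a' = ∑ i, Dn.col m i * pl v0 (bas i l') a' := rfl
    rw [e1, h, ← B5e_AM_mulVec, ← hB]
    have e2 : ∑ i, (Pi.single m (1 : ℂ) : Fin g → ℂ) i • pl v0 (bas i l') = pl v0 (bas m l') := by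
      rw [Finset.sum_eq_single m]
      · rw [Pi.single_eq_same, one_smul]
      · intro j _ hj
        rw [Pi.single_eq_of_ne hj, zero_smul]
      · intro h; exact absurd (Finset.mem_univ m) h
    rw [e2]
    rfl
  have h3 : ∀ b b' : Fin 3, ∑ m, pl v0 (dua m l) b * pl v0 (bas m l') b' = 0 := by
    intro b b'
    have h := (hL.places v0 v0 l l' b b').2 (fun h => hl h.2.1)
    have h' := congrArg (fun x : ℝ => (x : ℂ)) h
    simp only [ofReal_sum, ofReal_mul, ofReal_zero] at h'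
    exact h'
  have e : ∑ i, ∑ j, (toC MM.toBlocks₁₂ * Dnᵀ) i j *
      (pl v0 (bas i l) a * pl v0 (bas j l') a') =
      ∑ m, (∑ i, toC MM.toBlocks₁₂ i m * pl v0 (bas i l) a) *
        (∑ j, Dn j m * pl v0 (bas j l') a') := by
    simp only [Matrix.mul_apply, Matrix.transpose_apply, Finset.sum_mul, Finset.mul_sum]
    have : ∀ i, ∑ j, ∑ m, toC MM.toBlocks₁₂ i m * Dn j m *
        (pl v0 (bas i l) a * pl v0 (bas j l') a') =
        ∑ m, ∑ j, toC MM.toBlocks₁₂ i m * pl v0 (bas i l) a *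
          (Dn j m * pl v0 (bas j l') a') := by
      intro i
      rw [Finset.sum_comm]
      refine Finset.sum_congr rfl fun m _ => Finset.sum_congr rfl fun j _ => by ring
    simp only [this]
    rw [Finset.sum_comm]
    refine Finset.sum_congr rfl fun m _ => ?_
    rw [Finset.sum_comm]
  rw [e]
  simp only [h1, h2]
  have e3 : ∀ m, -(((v0 κ : ℝ) : ℂ) * ∑ b, Cv a b * pl v0 (dua m l) b) *
      ∑ b', B a' b' * pl v0 (bas m l') b' =
      ∑ b, ∑ b', -(((v0 κ : ℝ) : ℂ) * Cv a b * B a' b') *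
        (pl v0 (dua m l) b * pl v0 (bas m l') b') := by
    intro m
    rw [show -(((v0 κ : ℝ) : ℂ) * ∑ b, Cv a b * pl v0 (dua m l) b) =
        ∑ b, -(((v0 κ : ℝ) : ℂ) * (Cv a b * pl v0 (dua m l) b)) by
      rw [Finset.mul_sum, Finset.sum_neg_distrib]]
    rw [Finset.sum_mul_sum]
    refine Finset.sum_congr rfl fun b _ => Finset.sum_congr rfl fun b' _ => by ring
  simp only [e3]
  rw [Finset.sum_comm]
  refine Finset.sum_eq_zero fun b _ => ?_
  rw [Finset.sum_comm]
  refine Finset.sum_eq_zero fun b' _ => ?_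
  rw [← Finset.mul_sum, h3, mul_zero]

end Pool.Agent.helper76.BQ
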